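import Pool.Agent.Lib.MP_99c1f3_lc.CG.St
import Pool.Agent.Lib.MP_99c1f3_lc.CG.Final

/-!
# A model in which `ℵ_ω` is a strong limit and no outer model with the same `ω₁`, `ω₂`, `ω₃` has a
club guessing sequence for `S^{ω₂}_{ω₁}`

`ModelZFC M` (file `MP_a1c723_lc/BV/Defs.lean`) says that `(M, ∈)` satisfies all axioms of ZFC, with
separation and replacement for all formulas with parameters. The notions of the question inside a
model are in the file `MP_99c1f3_lc/CG/St.lean`: `IsSuccCardIn o' o` (`o'` is the cardinal successor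
of `o`), `IsAlephOmegaIn L w` (`L = ℵ_ω`), `IsStrongLimIn L` (`L` is a strong limit), `ClubGuessing N`
(in `N` there is a club guessing sequence for `S^{ω₂}_{ω₁}`), `IsTransEmb j` (`j` embeds `M` into `N`
as a transitive submodel).

If `P` is a poset of `M` (of any size) and `G` is an `M`-generic filter on `P`, the extension
`N = M[G]` is a model of ZFC which contains `M` as a transitive submodel. So no poset of `M` which
preserves `ω₁`, `ω₂`, `ω₃` adds a club guessing sequence for `S^{ω₂}_{ω₁}`.
-/

set_option autoImplicit false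

namespace Pool.Agent.Results.MP_99c1f3_lc.NoClubGuessing

open Pool.Agent.StarRoth.BV Pool.Agent.CG3

/-- There is a countable model `M` of ZFC in which `ℵ_ω` is a strong limit, such that no model `N`
of ZFC which contains `M` as a transitive submodel and in which `ω₁`, `ω₂`, `ω₃` of `M` are still
cardinals has a club guessing sequence for `S^{ω₂}_{ω₁}`. -/
theorem result : ∃ (M : Type) (_ : Membership M M), Countable M ∧ ModelZFC M ∧
    ∃ w o₁ o₂ o₃ L : M, IsOmegaIn w ∧ IsSuccCardIn o₁ w ∧ IsSuccCardIn o₂ o₁ ∧
      IsSuccCardIn o₃ o₂ ∧ IsAlephOmegaIn L w ∧ IsStrongLimIn L ∧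
      ∀ (N : Type) (_ : Membership N N) (j : M → N), ModelZFC N → IsTransEmb j →
        IsCardIn (j o₁) → IsCardIn (j o₂) → IsCardIn (j o₃) → ¬ ClubGuessing N :=
  answer

end Pool.Agent.Results.MP_99c1f3_lc.NoClubGuessing
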